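import Pool.Agent.helper88.KG.Defs
import Pool.Agent.helper18.EF.RG

/-! # Project KG, module K7: `D = 7 q`, `21 q`, `35 q`, `15 q` -/

namespace Pool.Agent.helper88.KG

open Finset Pool.Agent.helper76.LP Pool.Agent.helper88.EF

/-- no bad pairs: the differences vanish -/
theorem K7_core (D q : ℕ) [NeZero D] (L : List ℕ) (ev : Prop) (K : ℤ) (f : (ZMod D)ˣ → ℤ)
    (h : RK D q L ev K f) (hqD : q ∣ D) : RF_Core D q L f := by
  intro v hv hv1 hsq hno z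
  obtain ⟨ψ, h1, h2, h3⟩ := cube_test D q L h.nd h.hL v hv hv1 (Or.inr hsq) z
  have h4 := bd_one D q L v z ψ h2 ev (fun _ _ => hno)
  have h5 := h.est ψ 1 h1 h4
  have h6 := h3 f h.odd h.mdv
  rw [h6] at h5
  by_contra hne
  have h7 : (1 : ℤ) ≤ |dl v L f z| := Int.one_le_abs hne
  rw [abs_mul, abs_mul] at h5
  have hc : q - 1 ≤ Nat.card (Gam D q) := by
    rw [card_Gam D q h.hq hqD]
    split_ifs <;> omega
  have h8 : (q : ℤ) - 1 ≤ (Nat.card (Gam D q) : ℤ) := by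
    have := h.hq.one_lt
    omega
  have h9 : |(2 : ℤ)| = 2 := by norm_num
  rw [h9, Nat.abs_cast] at h5
  have h10 := h.hK
  have h11 := h.h11
  have h12 : (11 : ℤ) ≤ q := by exact_mod_cast h11
  nlinarith

theorem k13 (D q : ℕ) [NeZero D] (L : List ℕ) (ev : Prop) (K : ℤ) (f : (ZMod D)ˣ → ℤ)
    (h : RK D q L ev K f) (hD : D = 7 * q) : MDv (Gam D) L f :=
  RF_m13 D q L f h.hq h.nd h.hL
    (K7_core D q L ev K f h ⟨7, by rw [hD, mul_comm]⟩) h.h11 hD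

theorem k14 (D q : ℕ) [NeZero D] (L : List ℕ) (ev : Prop) (K : ℤ) (f : (ZMod D)ˣ → ℤ)
    (h : RK D q L ev K f) (hD : D = 21 * q) : MDv (Gam D) L f :=
  RF_m14 D q L f h.hq h.nd h.hL
    (K7_core D q L ev K f h ⟨21, by rw [hD, mul_comm]⟩) h.h11 hD

theorem k15 (D q : ℕ) [NeZero D] (L : List ℕ) (ev : Prop) (K : ℤ) (f : (ZMod D)ˣ → ℤ)
    (h : RK D q L ev K f) (hD : D = 35 * q) : MDv (Gam D) L f :=
  RF_m15 D q L f h.hq h.nd h.hL
    (K7_core D q L ev K f h ⟨35, by rw [hD, mul_comm]⟩) h.h11 hD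

theorem k16 (D q : ℕ) [NeZero D] (L : List ℕ) (ev : Prop) (K : ℤ) (f : (ZMod D)ˣ → ℤ)
    (h : RK D q L ev K f) (hD : D = 15 * q) : MDv (Gam D) L f :=
  RF_m16 D q L f h.hq h.nd h.hL
    (K7_core D q L ev K f h ⟨15, by rw [hD, mul_comm]⟩) h.h11 hD

end Pool.Agent.helper88.KG
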